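import Pool.Agent.Run7.h292.HG2

/-!
# MP_46c6cb_nt: the associated order in the canonical nonclassical structure is maximal

`L/K` is a Galois extension of `p`-adic fields with group `G` and `p ∤ [L : K]`.  Every
`K`-linear endomorphism of `L` that commutes with `G` comes from `H_λ`, so `𝔄_λ` is the ring of
the `O_K[G]`-endomorphisms of `O_L`.  If `x` lies in an order containing `𝔄_λ` and `z` is any
`O_K`-endomorphism of `O_L`, then `∑ g z g⁻¹` lies in `𝔄_λ`, so `[L : K] tr(xz)` is the trace of an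
integral element.  As `[L : K]` is a unit, `tr(xz) ∈ O_K` for every `z`, hence `x O_L ⊆ O_L`.
-/

set_option autoImplicit false
set_option linter.unusedSectionVars false

noncomputable section

namespace Pool.Agent.Results.MP_46c6cb_nt.MaximalAssociatedOrder

open Run7.h292

/-- The group `N = λ(G)`, a subgroup of `Perm(G)`, where `λ` is the left regular
representation `λ(g)(h) = g h`. -/
def N (G : Type*) [Group G] : Type _ := (HG.lam G).range

instance (G : Type*) [Group G] : Group (N G) := inferInstanceAs (Group (HG.lam G).range)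

/-- The element `λ(g)` of `N`. -/
def lamN {G : Type*} [Group G] (g : G) : N G := (HG.lam G).rangeRestrict g

/-- The permutation of `G` given by an element of `N ⊆ Perm(G)`. -/
def toPerm {G : Type*} [Group G] (n : N G) : Equiv.Perm G := (HG.lam G).range.subtype n

section defs

variable (K L : Type*) [Field K] [Field L] [Algebra K L]

/-- The group algebra `L[N]`, where `N = λ(G)` and `G = Gal(L/K)`. -/
def GroupAlg : Type _ := MonoidAlgebra L (N (L ≃ₐ[K] L))

instance : Ring (GroupAlg K L) := inferInstanceAs (Ring (MonoidAlgebra L (N (L ≃ₐ[K] L))))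

instance : Algebra K (GroupAlg K L) :=
  inferInstanceAs (Algebra K (MonoidAlgebra L (N (L ≃ₐ[K] L))))

variable {K L}

/-- The coefficient of `n ∈ N` in an element of `L[N]`. -/
def coef (h : GroupAlg K L) (n : N (L ≃ₐ[K] L)) : L := MonoidAlgebra.coeff h n

/-- `h ∈ L[N]` is fixed by the action `g · ∑ cₙ n = ∑ g(cₙ) λ(g) n λ(g)⁻¹` of `G`: for all `g` and
`n` the coefficient of `λ(g) n λ(g)⁻¹` in `h` is the image under `g` of the coefficient of `n`. -/
def IsFixed (h : GroupAlg K L) : Prop :=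
  ∀ (g : L ≃ₐ[K] L) (n : N (L ≃ₐ[K] L)), g (coef h n) = coef h (lamN g * n * (lamN g)⁻¹)

/-- The action of `h = ∑ cₙ n ∈ L[N]` on `L`: `h · x = ∑ cₙ (n⁻¹(1_G))(x)`. -/
def act (h : GroupAlg K L) (x : L) : L :=
  ∑ᶠ n : N (L ≃ₐ[K] L), coef h n * (toPerm n⁻¹ 1) x

/-- `L[N]` as a monoid algebra -/
def toMA : GroupAlg K L ≃ₐ[K] MonoidAlgebra L (HG.N (L ≃ₐ[K] L)) := AlgEquiv.refl

lemma coef_rr (h : GroupAlg K L) (a : L ≃ₐ[K] L) :
    coef h (lamN a) = (toMA h).coeff (HG.rr _ a) := rfl

lemma lamN_surjective : Function.Surjective (lamN : (L ≃ₐ[K] L) → N (L ≃ₐ[K] L)) :=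
  (HG.rr (L ≃ₐ[K] L)).surjective

lemma lamN_mul (g a : L ≃ₐ[K] L) : lamN g * lamN a * (lamN g)⁻¹ = lamN (g * a * g⁻¹) := by
  have h := map_mul (HG.lam (L ≃ₐ[K] L)).rangeRestrict
  have h2 := map_inv (HG.lam (L ≃ₐ[K] L)).rangeRestrict g
  have : (HG.lam (L ≃ₐ[K] L)).rangeRestrict (g * a * g⁻¹) =
      (HG.lam (L ≃ₐ[K] L)).rangeRestrict g * (HG.lam (L ≃ₐ[K] L)).rangeRestrict a *
        ((HG.lam (L ≃ₐ[K] L)).rangeRestrict g)⁻¹ := by
    rw [h, h, h2]
  exact this.symm

lemma isFixed_iff (h : GroupAlg K L) : IsFixed h ↔ toMA h ∈ HG.Hlam K L := by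
  rw [HG.mem_Hlam]
  constructor
  · intro hh g a
    have := hh g (lamN a)
    rwa [lamN_mul, coef_rr, coef_rr] at this
  · intro hh g n
    obtain ⟨a, rfl⟩ := lamN_surjective n
    rw [lamN_mul, coef_rr, coef_rr]
    exact hh g a

lemma toPerm_lamN (a : L ≃ₐ[K] L) : toPerm (lamN a)⁻¹ 1 = a⁻¹ := by
  show (((HG.lam (L ≃ₐ[K] L)).rangeRestrict a : Equiv.Perm (L ≃ₐ[K] L))⁻¹ :
    Equiv.Perm (L ≃ₐ[K] L)) 1 = a⁻¹
  rw [MonoidHom.coe_rangeRestrict, ← map_inv]
  exact mul_one a⁻¹

lemma act_eq [FiniteDimensional K L] (h : GroupAlg K L) (x : L) :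
    act h x = HG.act (toMA h) x := by
  have hf := Fintype.ofFinite (L ≃ₐ[K] L)
  have e0 : (L ≃ₐ[K] L) ≃ N (L ≃ₐ[K] L) := (HG.rr (L ≃ₐ[K] L)).toEquiv
  rw [act, HG.act_eq, ← finsum_eq_sum_of_fintype]
  let e1 : (L ≃ₐ[K] L) ≃ N (L ≃ₐ[K] L) := (HG.rr (L ≃ₐ[K] L)).toEquiv
  rw [← finsum_comp_equiv e1]
  refine finsum_congr fun a => ?_
  show coef h (lamN a) * (toPerm (lamN a)⁻¹ 1) x = _
  rw [toPerm_lamN, coef_rr]

lemma fixed_mul {a b : GroupAlg K L} (ha : IsFixed a) (hb : IsFixed b) : IsFixed (a * b) := by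
  rw [isFixed_iff, map_mul]
  exact mul_mem ((isFixed_iff _).1 ha) ((isFixed_iff _).1 hb)

lemma fixed_add {a b : GroupAlg K L} (ha : IsFixed a) (hb : IsFixed b) : IsFixed (a + b) := by
  rw [isFixed_iff, map_add]
  exact add_mem ((isFixed_iff _).1 ha) ((isFixed_iff _).1 hb)

lemma fixed_algebraMap (r : K) : IsFixed (algebraMap K (GroupAlg K L) r) := by
  rw [isFixed_iff, AlgEquiv.commutes]
  exact (HG.Hlam K L).algebraMap_mem r

variable (K L)

/-- The `K`-algebra `H_λ = L[N]^G`. -/
def Hlam : Subalgebra K (GroupAlg K L) where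
  carrier := {h | IsFixed h}
  mul_mem' := fixed_mul
  add_mem' := fixed_add
  algebraMap_mem' := fixed_algebraMap

variable {K L}

/-- the comparison of `H_λ` here and in the helper file -/
def toH : Hlam K L →ₐ[K] HG.Hlam K L :=
  ((toMA : GroupAlg K L ≃ₐ[K] _).toAlgHom.comp (Hlam K L).val).codRestrict (HG.Hlam K L)
    (fun h => (isFixed_iff _).1 h.2)

lemma toH_coe (h : Hlam K L) :
    ((toH h : HG.Hlam K L) : MonoidAlgebra L (HG.N (L ≃ₐ[K] L))) = toMA (h : GroupAlg K L) := rfl

/-- the action of `H_λ` on `L` as an algebra homomorphism -/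
def phi [FiniteDimensional K L] : Hlam K L →ₐ[K] Module.End K L := HG.actHom.comp toH

lemma phi_apply [FiniteDimensional K L] (h : Hlam K L) (x : L) :
    phi h x = act (h : GroupAlg K L) x := by
  rw [act_eq, ← toH_coe]
  rfl

lemma phi_injective [FiniteDimensional K L] : Function.Injective (phi : Hlam K L →ₐ[K] _) := by
  rw [injective_iff_map_eq_zero]
  intro h hh
  have h1 : toMA (h : GroupAlg K L) = 0 := by
    refine HG.act_injective fun x => ?_
    have := congrArg (fun f : Module.End K L => f x) hh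
    simp only [phi_apply, act_eq] at this
    exact this
  exact Subtype.ext ((map_eq_zero_iff _ toMA.injective).1 h1)

lemma phi_comm [FiniteDimensional K L] (h : Hlam K L) (g : L ≃ₐ[K] L) (x : L) :
    g (phi h x) = phi h (g x) := by
  rw [phi_apply, phi_apply, act_eq, act_eq]
  exact HG.act_comm ((isFixed_iff _).1 h.2) g x

lemma phi_surj [FiniteDimensional K L] [IsGalois K L] (f : Module.End K L)
    (hf : ∀ (g : L ≃ₐ[K] L) (x : L), g (f x) = f (g x)) : ∃ h : Hlam K L, phi h = f := by
  obtain ⟨h, hh⟩ := HG.exists_Hlam f hf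
  have h1 : IsFixed (toMA.symm (h : MonoidAlgebra L (HG.N (L ≃ₐ[K] L)))) := by
    rw [isFixed_iff, AlgEquiv.apply_symm_apply]
    exact h.2
  refine ⟨⟨_, h1⟩, LinearMap.ext fun x => ?_⟩
  rw [phi_apply, act_eq, AlgEquiv.apply_symm_apply]
  exact hh x

variable (R : Type*) [CommRing R] [Algebra R K] [Algebra R L] [IsScalarTower R K L]

/-- `h` maps the integral closure of `R` in `L` into itself. -/
def Preserves (h : Hlam K L) : Prop :=
  ∀ x ∈ integralClosure R L, act (h : GroupAlg K L) x ∈ integralClosure R L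

variable {R}

lemma pres_iff [FiniteDimensional K L] (h : Hlam K L) :
    Preserves R h ↔ ∀ x, IsIntegral R x → IsIntegral R (phi h x) := by
  refine forall_congr' fun x => ?_
  rw [phi_apply]
  rfl

lemma pres_mul [FiniteDimensional K L] {a b : Hlam K L} (ha : Preserves R a)
    (hb : Preserves R b) : Preserves R (a * b) := by
  rw [pres_iff] at *
  intro x hx
  rw [map_mul]
  exact ha _ (hb x hx)

lemma pres_add [FiniteDimensional K L] {a b : Hlam K L} (ha : Preserves R a)
    (hb : Preserves R b) : Preserves R (a + b) := by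
  rw [pres_iff] at *
  intro x hx
  rw [map_add]
  exact (ha _ hx).add (hb x hx)

lemma pres_algebraMap [FiniteDimensional K L] (r : integralClosure R K) :
    Preserves R (algebraMap (integralClosure R K) (Hlam K L) r) := by
  rw [pres_iff]
  intro x hx
  have e : algebraMap (integralClosure R K) (Hlam K L) r = algebraMap K (Hlam K L) (r : K) := rfl
  rw [e, AlgHom.commutes, Module.algebraMap_end_apply, Algebra.smul_def]
  exact ((mem_integralClosure_iff R K).1 r.2).algebraMap.mul hx

variable (K L R)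

/-- The associated order `𝔄_λ` in `H_λ` of the integral closure `O_L` of `R` in `L`: the elements of
`H_λ` that map `O_L` into `O_L`. It is an algebra over the integral closure `O_K` of `R` in `K`. -/
def assocOrder [FiniteDimensional K L] : Subalgebra (integralClosure R K) (Hlam K L) where
  carrier := {h | Preserves R h}
  mul_mem' := pres_mul
  add_mem' := pres_add
  algebraMap_mem' := pres_algebraMap

end defs

/-- The valuation ring of a finite extension of `ℚ_p` is a principal ideal ring. -/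
lemma isPrincipalIdealRing (p : ℕ) [Fact p.Prime] (K : Type*) [Field K] [Algebra ℚ_[p] K]
    [Algebra ℤ_[p] K] [IsScalarTower ℤ_[p] ℚ_[p] K] [FiniteDimensional ℚ_[p] K] :
    IsPrincipalIdealRing (integralClosure ℤ_[p] K) := by
  have hD : IsDedekindDomain (integralClosure ℤ_[p] K) :=
    integralClosure.isDedekindDomain ℤ_[p] ℚ_[p] K
  have hint : Algebra.IsIntegral ℤ_[p] (integralClosure ℤ_[p] K) := inferInstance
  have htf : Module.IsTorsionFree ℤ_[p] K := by
    have : FaithfulSMul ℤ_[p] K := by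
      rw [faithfulSMul_iff_algebraMap_injective, IsScalarTower.algebraMap_eq ℤ_[p] ℚ_[p] K]
      exact (algebraMap ℚ_[p] K).injective.comp (IsFractionRing.injective _ _)
    infer_instance
  refine IsPrincipalIdealRing.of_finite_primes ?_
  have h1 : (Ideal.primesOver (⊥ : Ideal ℤ_[p]) (integralClosure ℤ_[p] K)).Finite := by
    rw [Ideal.primesOver_bot]
    exact Set.finite_singleton _
  have h2 : (Ideal.primesOver (IsLocalRing.maximalIdeal ℤ_[p])
      (integralClosure ℤ_[p] K)).Finite := IsDedekindDomain.primesOver_finite _ _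
  refine (h1.union h2).subset fun P hP => ?_
  have hP' : P.IsPrime := hP
  by_cases h : P.under ℤ_[p] = ⊥
  · left
    exact ⟨hP', ⟨h.symm⟩⟩
  · right
    have : (P.under ℤ_[p]).IsMaximal := (Ideal.IsPrime.under ℤ_[p] P).isMaximal h
    exact ⟨hP', ⟨(IsLocalRing.eq_maximalIdeal this).symm⟩⟩

/-- **Main theorem.** Let `L/K` be a Galois extension of `p`-adic fields with group `G` and
`p ∤ [L : K]`.  The associated order `𝔄_λ` of `O_L` in the Hopf algebra `H_λ = L[λ(G)]^G` of the
canonical nonclassical Hopf-Galois structure is a maximal `O_K`-order in `H_λ`. -/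
theorem result (p : ℕ) [Fact p.Prime] (K L : Type*) [Field K] [Field L]
    [Algebra ℚ_[p] K] [Algebra ℚ_[p] L] [Algebra K L] [IsScalarTower ℚ_[p] K L]
    [Algebra ℤ_[p] K] [IsScalarTower ℤ_[p] ℚ_[p] K]
    [Algebra ℤ_[p] L] [IsScalarTower ℤ_[p] ℚ_[p] L] [IsScalarTower ℤ_[p] K L]
    [FiniteDimensional ℚ_[p] K] [FiniteDimensional K L] [IsGalois K L]
    (hp : ¬ p ∣ Module.finrank K L) :
    HG.IsMaximalOrder (integralClosure ℤ_[p] K) K (assocOrder K L ℤ_[p]) := by
  have h1 : IsPrincipalIdealRing (integralClosure ℤ_[p] K) := isPrincipalIdealRing p K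
  have h2 : IsFractionRing (integralClosure ℤ_[p] K) K :=
    integralClosure.isFractionRing_of_finite_extension ℚ_[p] K
  have hchar : CharZero K := charZero_of_injective_algebraMap (algebraMap ℚ_[p] K).injective
  have hn0 : (Module.finrank K L : K) ≠ 0 := by
    rw [Nat.cast_ne_zero]
    exact Module.finrank_pos.ne'
  have hu : IsUnit ((Module.finrank K L : ℕ) : ℤ_[p]) := by
    rw [PadicInt.isUnit_iff]
    exact (PadicInt.norm_natCast_eq_one_iff).2
      ((Nat.Prime.coprime_iff_not_dvd Fact.out).2 hp)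
  obtain ⟨u, hu⟩ := hu
  have e : (Module.finrank K L : K)⁻¹ = algebraMap ℤ_[p] K ((u⁻¹ : ℤ_[p]ˣ) : ℤ_[p]) := by
    rw [inv_eq_iff_eq_inv, ← map_units_inv, inv_inv, hu, map_natCast]
  exact HG.isMaximalOrder_of (R := ℤ_[p]) phi phi_injective phi_comm phi_surj
    (fun h => pres_iff h) hn0 (by rw [e]; exact isIntegral_algebraMap)

end Pool.Agent.Results.MP_46c6cb_nt.MaximalAssociatedOrder
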